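import Mathlib
import Pool.Agent.X7.IndepSearch

/-!
# `4`-independent sets in cyclic groups of odd order: the maximum size is not monotone

`τ_±(ℤ_69, [1,4]) ≥ 5`, while `τ_±(ℤ_73, [1,4]) ≤ 4`.
-/

set_option autoImplicit false

open Finset

namespace Pool.Agent.Results.MP_3bc6ef_co.OddNotMonotone

open Pool.Agent.X7.IndepSearch

/-- The signed `h`-fold sumset `h_± A`. -/
def signedSum {n : ℕ} (h : ℕ) (A : Finset (ZMod n)) : Set (ZMod n) :=
  {g | ∃ c : ZMod n → ℤ, ∑ a ∈ A, |c a| = (h : ℤ) ∧ ∑ a ∈ A, c a • a = g}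

/-- `A` is `t`-independent: `0 ∉ [1,t]_± A`. -/
def TIndep {n : ℕ} (t : ℕ) (A : Finset (ZMod n)) : Prop :=
  ∀ h : ℕ, 1 ≤ h → h ≤ t → (0 : ZMod n) ∉ signedSum h A

/-- `τ_±(ℤ_n, [1,t])`: the maximum size of a `t`-independent set in `ℤ_n`. -/
noncomputable def tau (n t : ℕ) : ℕ :=
  sSup {m | ∃ A : Finset (ZMod n), TIndep t A ∧ A.card = m}

theorem tindep_iff {n : ℕ} (t : ℕ) (A : Finset (ZMod n)) : TIndep t A ↔ Indep t A := by
  constructor
  · intro h c hc1 hc2 a ha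
    have hnn : 0 ≤ ∑ a ∈ A, |c a| := sum_nonneg (fun a _ => abs_nonneg _)
    rcases Nat.eq_zero_or_pos (∑ a ∈ A, |c a|).toNat with h0 | hpos
    · have h1 : ∑ a ∈ A, |c a| = 0 := by omega
      have h2 := (sum_eq_zero_iff_of_nonneg (fun a _ => abs_nonneg (c a))).1 h1 a ha
      exact abs_eq_zero.1 h2
    · exfalso
      exact h _ hpos (by omega) ⟨c, by omega, hc2⟩
  · rintro h k hk1 hkt ⟨c, hc1, hc2⟩
    have h0 := h c (by rw [hc1]; exact_mod_cast hkt) hc2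
    have : ∑ a ∈ A, |c a| = 0 := sum_eq_zero (fun a ha => by rw [h0 a ha, abs_zero])
    rw [this] at hc1
    omega

theorem bdd (n t : ℕ) [NeZero n] :
    BddAbove {m | ∃ A : Finset (ZMod n), TIndep t A ∧ A.card = m} := by
  refine ⟨n, ?_⟩
  rintro m ⟨A, -, rfl⟩
  calc A.card ≤ Fintype.card (ZMod n) := card_le_univ A
    _ = n := ZMod.card n

theorem attained (n t : ℕ) [NeZero n] : ∃ A : Finset (ZMod n), TIndep t A ∧ A.card = tau n t := by
  have hne : {m | ∃ A : Finset (ZMod n), TIndep t A ∧ A.card = m}.Nonempty :=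
    ⟨0, ∅, (tindep_iff t ∅).2 (fun c _ _ a ha => absurd ha (notMem_empty a)), card_empty⟩
  exact Nat.sSup_mem hne (bdd n t)

/-- `τ_±(ℤ_1, [1,4]) = 0`. -/
theorem tau_one : tau 1 4 = 0 := by
  obtain ⟨A, hA, hcard⟩ := attained 1 4
  rw [← hcard, card_eq_zero]
  by_contra hne
  obtain ⟨a, ha⟩ := nonempty_iff_ne_empty.2 hne
  refine hA 1 le_rfl (by norm_num) ⟨fun z => if z = a then 1 else 0, ?_, Subsingleton.elim _ _⟩
  have : ∀ z ∈ A, |if z = a then (1 : ℤ) else 0| = if z = a then (1 : ℤ) else 0 := by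
    intro z _
    split_ifs <;> simp
  rw [sum_congr rfl this, sum_ite_eq' A a, if_pos ha]
  rfl

theorem search73 : search 73 4 36 ((⟨1, 1, 1⟩ : Masks).add 73 1) 2 = true := by decide +kernel

/-- `τ_±(ℤ_73, [1,4]) ≤ 4`. -/
theorem tau_73 : tau 73 4 ≤ 4 := by
  have : Fact (Nat.Prime 73) := ⟨by norm_num⟩
  obtain ⟨A, hA, hcard⟩ := attained 73 4
  rw [← hcard]
  exact no_indep (by norm_num) 4 search73 A ((tindep_iff 4 A).1 hA)

theorem check69 : ∀ x1 ∈ Icc (-4 : ℤ) 4, ∀ x2 ∈ Icc (-4 : ℤ) 4, x1.natAbs + x2.natAbs ≤ 4 →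
    ∀ x3 ∈ Icc (-4 : ℤ) 4, x1.natAbs + x2.natAbs + x3.natAbs ≤ 4 →
    ∀ x4 ∈ Icc (-4 : ℤ) 4, x1.natAbs + x2.natAbs + x3.natAbs + x4.natAbs ≤ 4 →
    ∀ x5 ∈ Icc (-4 : ℤ) 4, x1.natAbs + x2.natAbs + x3.natAbs + x4.natAbs + x5.natAbs ≤ 4 →
    (x1 + 4 * x2 + 13 * x3 + 19 * x4 + 29 * x5) % 69 = 0 →
    x1 = 0 ∧ x2 = 0 ∧ x3 = 0 ∧ x4 = 0 ∧ x5 = 0 := by
  decide +kernel

/-- `τ_±(ℤ_69, [1,4]) ≥ 5`. -/
theorem tau_69 : 5 ≤ tau 69 4 := by
  refine le_csSup (bdd 69 4) ⟨{1, 4, 13, 19, 29}, ?_, by decide⟩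
  rw [tindep_iff]
  intro c h1 h2
  have hs : ∀ f : ZMod 69 → ℤ, ∑ a ∈ ({1, 4, 13, 19, 29} : Finset (ZMod 69)), f a =
      f 1 + f 4 + f 13 + f 19 + f 29 := by
    intro f
    rw [sum_insert (by decide), sum_insert (by decide), sum_insert (by decide),
      sum_insert (by decide), sum_singleton]
    ring
  have hs' : ∑ a ∈ ({1, 4, 13, 19, 29} : Finset (ZMod 69)), c a • a =
      c 1 • 1 + c 4 • 4 + c 13 • 13 + c 19 • 19 + c 29 • 29 := by
    rw [sum_insert (by decide), sum_insert (by decide), sum_insert (by decide),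
      sum_insert (by decide), sum_singleton]
    ring
  rw [hs] at h1
  rw [hs'] at h2
  have h3 : ((c 1 + 4 * c 4 + 13 * c 13 + 19 * c 19 + 29 * c 29 : ℤ) : ZMod 69) = 0 := by
    rw [← h2]
    push_cast
    simp only [zsmul_eq_mul]
    ring
  rw [ZMod.intCast_zmod_eq_zero_iff_dvd] at h3
  have h4 : (c 1 + 4 * c 4 + 13 * c 13 + 19 * c 19 + 29 * c 29) % 69 = 0 :=
    Int.emod_eq_zero_of_dvd (by exact_mod_cast h3)
  have habs : ∀ x : ℤ, |x| = (x.natAbs : ℤ) := fun x => (Int.natCast_natAbs x).symm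
  simp only [habs] at h1
  have key := check69 (c 1) (by rw [mem_Icc]; omega) (c 4) (by rw [mem_Icc]; omega) (by omega)
    (c 13) (by rw [mem_Icc]; omega) (by omega) (c 19) (by rw [mem_Icc]; omega) (by omega)
    (c 29) (by rw [mem_Icc]; omega) (by omega) h4
  obtain ⟨k1, k2, k3, k4, k5⟩ := key
  intro a ha
  simp only [mem_insert, mem_singleton] at ha
  rcases ha with rfl | rfl | rfl | rfl | rfl
  · exact k1
  · exact k2
  · exact k3
  · exact k4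
  · exact k5

/-- The sequence `τ_±(ℤ_n, [1,4])` over the odd positive integers `n = 2k + 1` is neither
non-decreasing nor non-increasing; explicitly `τ_±(ℤ_69, [1,4]) ≥ 5 > 4 ≥ τ_±(ℤ_73, [1,4])`. -/
theorem result : (5 ≤ tau 69 4 ∧ tau 73 4 ≤ 4) ∧
    ¬ Monotone (fun k : ℕ => tau (2 * k + 1) 4) ∧ ¬ Antitone (fun k : ℕ => tau (2 * k + 1) 4) := by
  refine ⟨⟨tau_69, tau_73⟩, ?_, ?_⟩
  · intro h
    have h1 : tau 69 4 ≤ tau 73 4 := h (show 34 ≤ 36 by norm_num)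
    have := tau_69
    have := tau_73
    omega
  · intro h
    have h1 : tau 69 4 ≤ tau 1 4 := h (show 0 ≤ 34 by norm_num)
    have := tau_69
    rw [tau_one] at h1
    omega

end Pool.Agent.Results.MP_3bc6ef_co.OddNotMonotone
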